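import Mathlib
import Pool.Agent.W192.HK.Defs

/-!
# Parts of the project HK (owner helper192): every `def H_... : Prop` is the statement of one part
-/

set_option autoImplicit false

open Complex Filter Topology Set

namespace Pool.Agent.W192.HK

open Pool.Agent.W192.CY (VW Vk)
open Pool.Agent.W192.CM (ez nu)

/-! ## arithmetic of `R` -/

/-- BASIC -/
def H_BASIC : Prop := ∀ (R : Subring ℂ) (ω : ℂ), QR R ω →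
  (∀ I : Ideal R, I ≠ ⊥ → Finite (R ⧸ I)) ∧
  nm (⊥ : Ideal R) = 0 ∧
  (∀ I : Ideal R, I ≠ ⊥ → 1 ≤ nm I) ∧
  (∀ I J : Ideal R, nm (I * J) = nm I * nm J) ∧
  (∀ α : R, nm (sp α) = Complex.normSq (α : ℂ)) ∧
  (∀ I J : Ideal R, I ≠ ⊥ → J ∣ I → nm J ≤ nm I) ∧
  (∀ I : Ideal R, nm I = 1 ↔ I = ⊤) ∧
  (∀ α : R, ∃ n : ℕ, Complex.normSq (α : ℂ) = n) ∧
  Finite Rˣ

/-- CLS : finiteness of the class group, representatives prime to `q` -/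
def H_CLS : Prop := ∀ (R : Subring ℂ) (ω : ℂ), QR R ω → ∃ h : ℕ, 1 ≤ h ∧
  (∀ I : Ideal R, ∃ α : R, I ^ h = sp α) ∧
  ∀ q : Ideal R, q ≠ ⊥ → ∃ (s : Finset (Ideal R)) (hh : Ideal R) (μ : R) (T : Finset R),
    s.card = h ∧ Sys q s hh μ T

/-- FP : the finite part of a Hecke character -/
def H_FP : Prop := ∀ (R : Subring ℂ) (ω : ℂ), QR R ω → ∀ (n : ℕ) (q : Ideal R) (ψ : Ideal R → ℂ),
  HC n q ψ → q ≠ ⊤ →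
  (∀ I : Ideal R, I ≠ ⊥ → IsCoprime I q → ‖ψ I‖ ^ 2 = nm I ^ n) ∧
  (∀ α β : R, fp n ψ (α * β) = fp n ψ α * fp n ψ β) ∧
  (∀ α : R, fp n ψ α = 0 ↔ ¬ IsCoprime (sp α) q) ∧
  (∀ α : R, IsCoprime (sp α) q → ‖fp n ψ α‖ = 1) ∧
  (∀ α β : R, α - β ∈ q → fp n ψ α = fp n ψ β)

/-- FPR : ray class characters are periodic and have values roots of unity or `0` -/
def H_FPR : Prop := ∀ (R : Subring ℂ) (ω : ℂ), QR R ω → ∀ (c : Ideal R) (χ : Ideal R → ℂ),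
  RC c χ →
  (∀ α β : R, α ≠ 0 → β ≠ 0 → α - β ∈ c → χ (sp α) = χ (sp β)) ∧
  (∀ I : Ideal R, χ I ≠ 0 → ‖χ I‖ = 1) ∧ χ ⊤ = 1 ∧
  ∃ d : ℕ, Od χ d

/-- LAT : points of a coset of an ideal in a disc -/
def H_LAT : Prop := ∀ (R : Subring ℂ) (ω : ℂ), QR R ω → ∃ C : ℝ, 0 < C ∧
  ∀ I : Ideal R, I ≠ ⊥ → ∀ (a : R) (y : ℝ), 0 ≤ y →
    {α : R | Complex.normSq (α : ℂ) ≤ y ∧ α - a ∈ I}.Finite ∧
    (Set.ncard {α : R | Complex.normSq (α : ℂ) ≤ y ∧ α - a ∈ I} : ℝ) ≤ C * (1 + y / nm I)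

open Classical in
/-- KER : the fibres of the powers of `χ` on residue classes -/
def H_KER : Prop := ∀ (R : Subring ℂ) (ω : ℂ), QR R ω → ∃ C : ℝ, 0 < C ∧
  ∀ (c : Ideal R) (χ : Ideal R → ℂ), RC c χ → ∀ d : ℕ, Od χ d → ∀ e : ℕ, e ∣ d →
  ∀ (q hh : Ideal R) (T : Finset R), c ∣ q → q ≠ ⊥ → Rp q hh T → ∀ ζ : ℂ,
    ((T.filter (fun x : R => χ (sp x) ≠ 0 ∧ χ (sp x) ^ (d / e) = ζ)).card : ℝ) ≤ C * nm q / e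

/-- CNT : number of ideals -/
def H_CNT : Prop := ∀ (R : Subring ℂ) (ω : ℂ), QR R ω →
  (∀ y : ℝ, {I : Ideal R | nm I ≤ y}.Finite) ∧
  (∀ σ : ℝ, 1 < σ → Summable (fun I : Ideal R => (nm I) ^ (-σ))) ∧
  ∃ C : ℝ, 0 < C ∧ (∀ y : ℝ, 1 ≤ y → (Set.ncard {I : Ideal R | nm I ≤ y} : ℝ) ≤ C * y) ∧
  ∀ (c : Ideal R) (χ : Ideal R → ℂ), RC c χ → ∀ d : ℕ, Od χ d → (d : ℝ) ≤ C * nm c ∧
    ∀ e : ℕ, e ∣ d → ∀ y : ℝ, 1 ≤ y →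
      (cntI χ (d / e) y : ℝ) ≤ C * (1 + y / nm c) * (nm c / e)

/-- DIVR : divisor bound for ideals -/
def H_DIVR : Prop := ∀ (R : Subring ℂ) (ω : ℂ), QR R ω → ∀ η : ℝ, 0 < η → ∃ C : ℝ, 0 < C ∧
  ∀ I : Ideal R, I ≠ ⊥ → {J : Ideal R | J ∣ I}.Finite ∧
    (Set.ncard {J : Ideal R | J ∣ I} : ℝ) ≤ C * (nm I) ^ η

/-- MU -/
def H_MU : Prop := ∀ (R : Subring ℂ) (ω : ℂ), QR R ω → ∃ mu : Ideal R → ℝ, Mu R mu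

/-- COUNT -/
def H_COUNT : Prop := ∀ (R : Subring ℂ) (ω : ℂ), QR R ω → ∀ (j : ℕ), 1 ≤ j → ∀ η : ℝ, 0 < η →
  ∃ C : ℝ, 0 < C ∧ ∀ (c : Ideal R) (χ : Ideal R → ℂ), RC c χ → ∀ d : ℕ, Od χ d →
    ∀ e : ℕ, e ∣ d → ∀ y : ℝ, 1 ≤ y →
      (cntI χ (d / e) y : ℝ) ^ j ≤ C * y ^ η * (y ^ j / nm c + 1) * (nm c / e)

/-- TAIL -/
def H_TAIL : Prop := ∀ (R : Subring ℂ) (ω : ℂ), QR R ω → ∀ ε : ℝ, 0 < ε → ε < 1 / 12 →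
  ∃ η δ C : ℝ, 0 < η ∧ η < 1 / 8 ∧ 0 < δ ∧ 0 < C ∧
  ∀ (c : Ideal R) (χ : Ideal R → ℂ), RC c χ → ∀ d : ℕ, Od χ d → (nm c) ^ (2 / 3 + ε) ≤ d →
  ∀ e : ℕ, e ∣ d →
    Summable (fun I : Ideal R => (nm I) ^ (-1 / 2 + η) *
      Real.exp (-(nm I / (nm c) ^ (2 / 3 + ε / 2)))) ∧
    (e : ℝ) * tailI χ (d / e) ((nm c) ^ (ε / 2)) ((nm c) ^ (2 / 3 + ε / 2)) η ≤
      C * d * (nm c) ^ (-δ)

/-- MOB -/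
def H_MOB : Prop := ∀ d M : ℕ, 0 < d → 0 < M → M ∣ d → ∃ t : ℕ → ℕ,
  (Ea d M).card * Nat.totient M = Nat.totient d ∧
  ∀ G : ℕ → ℂ, (∀ a, G (a + d) = G a) → ∑ a ∈ Ea d M, G a =
    ∑ r ∈ d.divisors.filter (fun r => Nat.Coprime r M),
      ((ArithmeticFunction.moebius r : ℤ) : ℂ) *
        ∑ j ∈ Finset.range (d / (r * M)), G (t r + r * M * j)

/-! ## the averages -/

/-- MAINP -/
def H_MAINP : Prop := ∀ (V : ℝ → ℝ) (CV : ℝ), VW V CV → ∀ (R : Subring ℂ) (ω : ℂ), QR R ω →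
  ∀ (mu : Ideal R → ℝ) (g : Ideal R → ℂ), Mu R mu → Gd R g → ∀ ε : ℝ, 0 < ε → ε < 1 / 12 →
  ∃ δ C q0 : ℝ, 0 < δ ∧ 0 < C ∧ ∀ (c : Ideal R) (χ : Ideal R → ℂ), RC c χ → q0 ≤ nm c →
  ∀ d : ℕ, Od χ d → (nm c) ^ (2 / 3 + ε) ≤ d → ∀ M : ℕ, 1 ≤ M → M ∣ d →
  ‖∑ a ∈ Ea d M, mol mu g ((nm c) ^ (ε / 2)) (pw χ a) *
      smo V g ((nm c) ^ (2 / 3 : ℝ) / 2) (pw χ a) - ((Ea d M).card : ℂ)‖ ≤
    C * d * (nm c) ^ (-δ)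

/-- DUALP -/
def H_DUALP : Prop := ∀ (V : ℝ → ℝ) (CV : ℝ), VW V CV → ∀ (R : Subring ℂ) (ω : ℂ), QR R ω →
  ∀ (mu : Ideal R → ℝ) (g : Ideal R → ℂ), Mu R mu → Gd R g → ∀ c0 C1 : ℝ, 0 < c0 → 0 < C1 →
  ∀ ε : ℝ, 0 < ε → ε < 1 / 12 →
  ∃ δ C q0 : ℝ, 0 < δ ∧ 0 < C ∧ ∀ (c : Ideal R) (χ : Ideal R → ℂ), RC c χ → q0 ≤ nm c →
  ∀ d : ℕ, Od χ d → (nm c) ^ (2 / 3 + ε) ≤ d → ∀ M : ℕ, 1 ≤ M → M ∣ d →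
  ∀ (q hh : Ideal R) (T : Finset R), q ≠ ⊥ → c ∣ q → nm q ≤ C1 * nm c → hh ≠ ⊥ →
  IsCoprime hh q → Rp q hh T → ∀ k : R → ℂ, (∀ x : R, ‖k x‖ ≤ (nm c) ^ (-1 / 2 : ℝ)) →
  ‖∑ a ∈ Ea d M, mol mu g ((nm c) ^ (ε / 2)) (pw χ a) *
      (∑ x ∈ T, pw χ a (sp x) * k x / pw χ a hh) *
      (starRingEnd ℂ) (smo V g (c0 * (nm c) ^ (1 / 3 : ℝ)) (pw χ a))‖ ≤
    C * d * (nm c) ^ (-δ)

/-- FINN -/
def H_FINN : Prop := ∀ (V : ℝ → ℝ) (CV : ℝ), VW V CV → ∀ (R : Subring ℂ) (ω : ℂ), QR R ω →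
  ∀ g : Ideal R → ℂ, Gd R g → ∀ c0 C1 : ℝ, 0 < c0 → 0 < C1 → ∀ M : ℕ, 1 ≤ M → ∀ ε : ℝ, 0 < ε →
  ∃ q0 : ℝ, ∀ (c : Ideal R) (χ : Ideal R → ℂ), RC c χ → q0 ≤ nm c →
  ∀ d : ℕ, Od χ d → (nm c) ^ (2 / 3 + ε) ≤ d →
  ∀ (q hh : Ideal R) (T : Finset R), q ≠ ⊥ → c ∣ q → nm q ≤ C1 * nm c → hh ≠ ⊥ →
  IsCoprime hh q → Rp q hh T → ∀ k : R → ℂ, (∀ x : R, ‖k x‖ ≤ (nm c) ^ (-1 / 2 : ℝ)) →
  ∀ L : ℕ → ℂ,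
    (∀ a : ℕ, Nat.Coprime a d → ∀ X Y : ℝ, 0 < X → 0 < Y → X * Y = c0 * nm c →
      L a = smo V g X (pw χ a) + (∑ x ∈ T, pw χ a (sp x) * k x / pw χ a hh) *
        (starRingEnd ℂ) (smo V g Y (pw χ a))) →
    ∃ a : ℕ, Nat.Coprime a d ∧ a % M = 1 % M ∧ (nm c) ^ (-ε) ≤ ‖L a‖

/-! ## theta functions and the functional equation -/

open Classical in
/-- DEC : sums over ideals as sums over elements -/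
def H_DEC : Prop := ∀ (R : Subring ℂ) (ω : ℂ), QR R ω → ∀ s : Finset (Ideal R), Cs s →
  (∀ b : Ideal R, b ≠ ⊥ → ∀ α : R, α ∈ b → quo b α * b = sp α) ∧
  ∀ F : Ideal R → ℂ, F ⊥ = 0 →
    (Summable F ↔ ∀ b ∈ s, Summable (fun α : R => if α ∈ b then F (quo b α) else 0)) ∧
    (Summable F → ∑' I : Ideal R, F I =
      ∑ b ∈ s, (1 / (nu R : ℂ)) * ∑' α : R, if α ∈ b then F (quo b α) else 0)

/-- GAUSS -/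
def H_GAUSS : Prop := ∀ (R : Subring ℂ) (ω : ℂ), QR R ω → ∀ (n : ℕ) (q : Ideal R)
  (ψ : Ideal R → ℂ), HC n q ψ → q ≠ ⊤ → ∀ (s : Finset (Ideal R)) (hh : Ideal R) (μ : R)
  (T : Finset R), Sys q s hh μ T →
  ‖gT ω n ψ μ T‖ ^ 2 = nm q ∧
  ∀ b g : Ideal R, b * g = hh → ∀ U : Finset R, Rp q b U → ∀ γ ∈ g,
    ∑ r ∈ U, fp n ψ r * ez ω ((r : ℂ) * (γ : ℂ) / (μ : ℂ)) =
      (starRingEnd ℂ) (fp n ψ γ) * gT ω n ψ μ T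

open Classical in
/-- POIS : Poisson summation for ideals -/
def H_POIS : Prop := ∀ (R : Subring ℂ) (ω : ℂ), QR R ω → ∀ (n : ℕ) (a g : Ideal R) (μ r : R)
  (t : ℝ), a ≠ ⊥ → g ≠ ⊥ → a * g = sp μ → 0 < t →
  Summable (fun γ : R => if γ ∈ g then ((starRingEnd ℂ) (γ : ℂ)) ^ n *
      ez ω ((r : ℂ) * (γ : ℂ) / (μ : ℂ)) *
      (Real.exp (-(Real.pi * Complex.normSq (γ : ℂ) / (ω.im * t))) : ℂ) else 0) ∧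
  Summable (fun α : R => if α ∈ a then (((r : ℂ) + (α : ℂ)) / (μ : ℂ)) ^ n *
      (Real.exp (-(Real.pi * t * Complex.normSq ((r : ℂ) + (α : ℂ)) /
        (ω.im * Complex.normSq (μ : ℂ)))) : ℂ) else 0) ∧
  ∑' γ : R, (if γ ∈ g then ((starRingEnd ℂ) (γ : ℂ)) ^ n *
      ez ω ((r : ℂ) * (γ : ℂ) / (μ : ℂ)) *
      (Real.exp (-(Real.pi * Complex.normSq (γ : ℂ) / (ω.im * t))) : ℂ) else 0) =
    ((t : ℂ) ^ (n + 1) / (nm g : ℂ)) * ∑' α : R, (if α ∈ a then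
      (((r : ℂ) + (α : ℂ)) / (μ : ℂ)) ^ n *
      (Real.exp (-(Real.pi * t * Complex.normSq ((r : ℂ) + (α : ℂ)) /
        (ω.im * Complex.normSq (μ : ℂ)))) : ℂ) else 0)

/-- THETA -/
def H_THETA : Prop := ∀ (R : Subring ℂ) (ω : ℂ), QR R ω → ∀ (m : ℕ), 1 ≤ m → ∀ (q : Ideal R)
  (ψ : Ideal R → ℂ), HC (2 * m - 1) q ψ → ∀ (s : Finset (Ideal R)) (hh : Ideal R) (μ : R)
  (T : Finset R), Sys q s hh μ T → ∀ t : ℝ, 0 < t →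
  ∑' I : Ideal R, ψ I *
      (Real.exp (-(Real.pi * nm I / (ω.im * Real.sqrt (nm q))) / t) : ℂ) =
    Wc ω m q hh μ T ψ * (t : ℂ) ^ (2 * m) * ∑' I : Ideal R, (starRingEnd ℂ) (ψ I) *
      (Real.exp (-(Real.pi * nm I / (ω.im * Real.sqrt (nm q))) * t) : ℂ)

/-- AFE -/
def H_AFE : Prop := ∀ (R : Subring ℂ) (ω : ℂ), QR R ω → ∀ (m : ℕ), 1 ≤ m → ∀ (q : Ideal R)
  (ψ : Ideal R → ℂ), HC (2 * m - 1) q ψ → ∀ (s : Finset (Ideal R)) (hh : Ideal R) (μ : R)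
  (T : Finset R), Sys q s hh μ T →
  ∃ F : ℂ → ℂ, Differentiable ℂ F ∧
    (∀ z : ℂ, (m : ℝ) + 1 / 2 < z.re → HasSum (fun I : Ideal R => ψ I * (nm I : ℂ) ^ (-z)) (F z)) ∧
    ∀ X Y : ℝ, 0 < X → 0 < Y → X * Y = ω.im ^ 2 * nm q / Real.pi ^ 2 →
      F m = ∑' I : Ideal R, ψ I / (nm I : ℂ) ^ m * (Vk m (nm I / X) : ℂ) +
        Wc ω m q hh μ T ψ * ∑' I : Ideal R, (starRingEnd ℂ) (ψ I) / (nm I : ℂ) ^ m *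
          (Vk m (nm I / Y) : ℂ)

/-! ## operations on characters -/

/-- PROD -/
def H_PROD : Prop := ∀ (R : Subring ℂ) (ω : ℂ), QR R ω → ∀ (n : ℕ) (f c : Ideal R)
  (ψ χ : Ideal R → ℂ), HC n f ψ → HC 0 c χ → IsCoprime f c →
  HC n (f * c) (fun I => ψ I * χ I)

/-- PW -/
def H_PW : Prop := ∀ (R : Subring ℂ) (ω : ℂ), QR R ω → ∀ (c : Ideal R) (χ : Ideal R → ℂ),
  HC 0 c χ → ∀ d : ℕ, Od χ d → ∀ a : ℕ, Nat.Coprime a d → HC 0 c (pw χ a)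

end Pool.Agent.W192.HK
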