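import Mathlib
import Pool.Agent.W192.HK.Parts

/-!
# Project HK, second theorem (owner helper192): dihedral Artin L-functions at `s = 1/2`

The case `n = 0` (ray class characters themselves).  The weight function is now
`V0 x = Γ(1/2, x) / Γ(1/2)`, for which only `|1 - V0 x| ≤ C √x` holds, so the averages are restated
with `VH` in place of `VW`.
-/

set_option autoImplicit false

open Complex Filter Topology Set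

namespace Pool.Agent.W192.HK

open Pool.Agent.W192.CM (ez nu)

/-- conditions on the weight function, half power at `0` -/
structure VH (V : ℝ → ℝ) (C : ℝ) : Prop where
  pos : 0 < C
  dec : ∀ x : ℝ, 0 ≤ x → |V x| ≤ C * Real.exp (-(x / 2))
  one : ∀ x : ℝ, 0 ≤ x → |1 - V x| ≤ C * Real.sqrt x

/-- `Γ(1/2, x) / Γ(1/2)` -/
noncomputable def V0 (x : ℝ) : ℝ :=
  (1 / Real.sqrt Real.pi) * ∫ t in Set.Ioi x, Real.exp (-t) * t ^ (-1 / 2 : ℝ)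

/-- V -/
def N_V : Prop := ∃ C : ℝ, VH V0 C

/-- MAINP -/
def N_MAINP : Prop := ∀ (V : ℝ → ℝ) (CV : ℝ), VH V CV → ∀ (R : Subring ℂ) (ω : ℂ), QR R ω →
  ∀ (mu : Ideal R → ℝ) (g : Ideal R → ℂ), Mu R mu → Gd R g → ∀ ε : ℝ, 0 < ε → ε < 1 / 12 →
  ∃ δ C q0 : ℝ, 0 < δ ∧ 0 < C ∧ ∀ (c : Ideal R) (χ : Ideal R → ℂ), RC c χ → q0 ≤ nm c →
  ∀ d : ℕ, Od χ d → (nm c) ^ (2 / 3 + ε) ≤ d → ∀ M : ℕ, 1 ≤ M → M ∣ d →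
  ‖∑ a ∈ Ea d M, mol mu g ((nm c) ^ (ε / 2)) (pw χ a) *
      smo V g ((nm c) ^ (2 / 3 : ℝ) / 2) (pw χ a) - ((Ea d M).card : ℂ)‖ ≤
    C * d * (nm c) ^ (-δ)

/-- DUALP -/
def N_DUALP : Prop := ∀ (V : ℝ → ℝ) (CV : ℝ), VH V CV → ∀ (R : Subring ℂ) (ω : ℂ), QR R ω →
  ∀ (mu : Ideal R → ℝ) (g : Ideal R → ℂ), Mu R mu → Gd R g → ∀ c0 C1 : ℝ, 0 < c0 → 0 < C1 →
  ∀ ε : ℝ, 0 < ε → ε < 1 / 12 →
  ∃ δ C q0 : ℝ, 0 < δ ∧ 0 < C ∧ ∀ (c : Ideal R) (χ : Ideal R → ℂ), RC c χ → q0 ≤ nm c →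
  ∀ d : ℕ, Od χ d → (nm c) ^ (2 / 3 + ε) ≤ d → ∀ M : ℕ, 1 ≤ M → M ∣ d →
  ∀ (q hh : Ideal R) (T : Finset R), q ≠ ⊥ → c ∣ q → nm q ≤ C1 * nm c → hh ≠ ⊥ →
  IsCoprime hh q → Rp q hh T → ∀ k : R → ℂ, (∀ x : R, ‖k x‖ ≤ (nm c) ^ (-1 / 2 : ℝ)) →
  ‖∑ a ∈ Ea d M, mol mu g ((nm c) ^ (ε / 2)) (pw χ a) *
      (∑ x ∈ T, pw χ a (sp x) * k x / pw χ a hh) *
      (starRingEnd ℂ) (smo V g (c0 * (nm c) ^ (1 / 3 : ℝ)) (pw χ a))‖ ≤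
    C * d * (nm c) ^ (-δ)

/-- FINN -/
def N_FINN : Prop := ∀ (V : ℝ → ℝ) (CV : ℝ), VH V CV → ∀ (R : Subring ℂ) (ω : ℂ), QR R ω →
  ∀ g : Ideal R → ℂ, Gd R g → ∀ c0 C1 : ℝ, 0 < c0 → 0 < C1 → ∀ M : ℕ, 1 ≤ M → ∀ ε : ℝ, 0 < ε →
  ∃ q0 : ℝ, ∀ (c : Ideal R) (χ : Ideal R → ℂ), RC c χ → q0 ≤ nm c →
  ∀ d : ℕ, Od χ d → (nm c) ^ (2 / 3 + ε) ≤ d →
  ∀ (q hh : Ideal R) (T : Finset R), q ≠ ⊥ → c ∣ q → nm q ≤ C1 * nm c → hh ≠ ⊥ →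
  IsCoprime hh q → Rp q hh T → ∀ k : R → ℂ, (∀ x : R, ‖k x‖ ≤ (nm c) ^ (-1 / 2 : ℝ)) →
  ∀ L : ℕ → ℂ,
    (∀ a : ℕ, Nat.Coprime a d → ∀ X Y : ℝ, 0 < X → 0 < Y → X * Y = c0 * nm c →
      L a = smo V g X (pw χ a) + (∑ x ∈ T, pw χ a (sp x) * k x / pw χ a hh) *
        (starRingEnd ℂ) (smo V g Y (pw χ a))) →
    ∃ a : ℕ, Nat.Coprime a d ∧ a % M = 1 % M ∧ (nm c) ^ (-ε) ≤ ‖L a‖

/-- the unimodular constant of the functional equation, `n = 0` -/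
noncomputable def Wz {R : Subring ℂ} (ω : ℂ) (q hh : Ideal R) (μ : R) (T : Finset R)
    (ψ : Ideal R → ℂ) : ℂ :=
  gT ω 0 ψ μ T / ((Real.sqrt (nm q) : ℂ) * ψ hh)

/-- THETA -/
def N_THETA : Prop := ∀ (R : Subring ℂ) (ω : ℂ), QR R ω → ∀ (q : Ideal R)
  (ψ : Ideal R → ℂ), HC 0 q ψ → q ≠ ⊤ → ∀ (s : Finset (Ideal R)) (hh : Ideal R) (μ : R)
  (T : Finset R), Sys q s hh μ T → ∀ t : ℝ, 0 < t →
  ∑' I : Ideal R, ψ I *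
      (Real.exp (-(Real.pi * nm I / (ω.im * Real.sqrt (nm q))) / t) : ℂ) =
    Wz ω q hh μ T ψ * (t : ℂ) * ∑' I : Ideal R, (starRingEnd ℂ) (ψ I) *
      (Real.exp (-(Real.pi * nm I / (ω.im * Real.sqrt (nm q))) * t) : ℂ)

/-- AFE -/
def N_AFE : Prop := ∀ (R : Subring ℂ) (ω : ℂ), QR R ω → ∀ (q : Ideal R)
  (ψ : Ideal R → ℂ), HC 0 q ψ → q ≠ ⊤ → ∀ (s : Finset (Ideal R)) (hh : Ideal R) (μ : R)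
  (T : Finset R), Sys q s hh μ T →
  ∃ F : ℂ → ℂ, Differentiable ℂ F ∧
    (∀ z : ℂ, 1 < z.re → HasSum (fun I : Ideal R => ψ I * (nm I : ℂ) ^ (-z)) (F z)) ∧
    ∀ X Y : ℝ, 0 < X → 0 < Y → X * Y = ω.im ^ 2 * nm q / Real.pi ^ 2 →
      F (1 / 2) = ∑' I : Ideal R, ψ I / (Real.sqrt (nm I) : ℂ) * (V0 (nm I / X) : ℂ) +
        Wz ω q hh μ T ψ * ∑' I : Ideal R, (starRingEnd ℂ) (ψ I) / (Real.sqrt (nm I) : ℂ) *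
          (V0 (nm I / Y) : ℂ)

end Pool.Agent.W192.HK
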