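import Mathlib
import Pool.Agent.W192.HK.Parts0

/-!
# Project HL (owner helper192): Lindelöf on average over Galois conjugates

`K` imaginary quadratic, `ψ` a fixed primitive ray class character, `χ` a primitive ray class
character of conductor `c` (prime to that of `ψ`) of order `d`.  The mean of `|L(ψ χ ^ a, 1/2)|²` over
the Galois conjugates `χ ^ a` is `≤ C N(c)^ε (N(c)/d)^(1/2)`.
-/

set_option autoImplicit false

open Complex Filter Topology Set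

namespace Pool.Agent.W192.HK

open Pool.Agent.W192.CM (ez nu)

/-- the coprime pairs `(I, J)` with `χ(I) = χ(J)`, `N I ≤ x`, `N J ≤ y` -/
def prs {R : Subring ℂ} (χ : Ideal R → ℂ) (x y : ℝ) : Set (Ideal R × Ideal R) :=
  {p | IsCoprime p.1 p.2 ∧ nm p.1 ≤ x ∧ nm p.2 ≤ y ∧ χ p.1 ≠ 0 ∧ χ p.1 = χ p.2}

/-- PAIR -/
def L_PAIR : Prop := ∀ (R : Subring ℂ) (ω : ℂ), QR R ω → ∃ C : ℝ, 0 < C ∧
  ∀ (c : Ideal R) (χ : Ideal R → ℂ), RC c χ → ∀ d : ℕ, Od χ d → ∀ x y : ℝ, 1 ≤ x → 1 ≤ y →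
    (prs χ x y).Finite ∧
    (Set.ncard (prs χ x y) : ℝ) ≤ C * (nm c / d) * (1 + Real.log y + x * y / nm c)

/-- MS : mean square of the smooth sums over all powers of `χ` -/
def L_MS : Prop := ∀ (V : ℝ → ℝ) (CV : ℝ), VH V CV → ∀ (R : Subring ℂ) (ω : ℂ), QR R ω →
  ∀ g : Ideal R → ℂ, Gd R g → ∀ c0 : ℝ, 0 < c0 → ∀ ε : ℝ, 0 < ε → ∃ C : ℝ, 0 < C ∧
  ∀ (c : Ideal R) (χ : Ideal R → ℂ), RC c χ → ∀ d : ℕ, Od χ d →
    ∑ a ∈ Finset.range d, ‖smo V g (c0 * Real.sqrt (nm c)) (pw χ a)‖ ^ 2 ≤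
      C * d * (nm c) ^ ε * Real.sqrt (nm c / d)

end Pool.Agent.W192.HK
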