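import Pool.Agent.W192.HK.Parts

/-!
# Assembly of the project HK
-/

set_option autoImplicit false

open Complex Filter Topology Set

namespace Pool.Agent.W192.HK

open Pool.Agent.W192.CY (VW Vk K_VK)
open Pool.Agent.W192.CM (ez nu)

theorem ez_norm (ω z : ℂ) : ‖ez ω z‖ = 1 := by
  unfold Pool.Agent.W192.CM.ez
  rw [show (2 * Real.pi * Complex.I * ((z.im / ω.im : ℝ) : ℂ)) =
    (((2 * Real.pi * (z.im / ω.im) : ℝ)) : ℂ) * Complex.I by push_cast; ring]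
  exact Complex.norm_exp_ofReal_mul_I _

theorem HC.top {R : Subring ℂ} {n : ℕ} {q : Ideal R} {ψ : Ideal R → ℂ} (h : HC n q ψ) : ψ ⊤ = 1 := by
  have h0 : ψ ⊤ ≠ 0 := by
    intro h1
    rcases (h.zero ⊤).1 h1 with h2 | h2
    · exact top_ne_bot h2
    · exact h2 (by rw [Ideal.isCoprime_iff_sup_eq]; exact top_sup_eq q)
  have h1 := h.mul ⊤ ⊤
  rw [Ideal.top_mul] at h1
  exact (mul_eq_left₀ h0).1 h1.symm

theorem HC.rc {R : Subring ℂ} {q : Ideal R} {ψ : Ideal R → ℂ} (h : HC 0 q ψ) : RC q ψ :=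
  ⟨h.ne, h.mul, h.zero, fun α h0 h1 => by rw [h.princ α h0 h1, pow_zero]⟩

theorem HC.ne_top {R : Subring ℂ} {m : ℕ} (hm : 1 ≤ m) {q : Ideal R} {ψ : Ideal R → ℂ}
    (h : HC (2 * m - 1) q ψ) : q ≠ ⊤ := by
  rintro rfl
  have h1 := h.princ (-1) (by simp) (by trivial)
  have h2 : sp (-1 : R) = ⊤ := by
    rw [Ideal.span_singleton_eq_top]
    exact isUnit_one.neg
  rw [h2, h.top] at h1
  have h3 : ((-1 : R) : ℂ) = -1 := by push_cast; rfl
  rw [h3, Odd.neg_one_pow ⟨m - 1, by omega⟩] at h1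
  norm_num at h1

theorem HC.sq {R : Subring ℂ} {ω : ℂ} (hR : QR R ω) (hfp : H_FP) {m : ℕ} (hm : 1 ≤ m) {q : Ideal R}
    {ψ : Ideal R → ℂ} (h : HC (2 * m - 1) q ψ) {I : Ideal R} (h0 : I ≠ ⊥) (h1 : IsCoprime I q) :
    ‖ψ I‖ ^ 2 = nm I ^ (2 * m - 1) :=
  (hfp R ω hR _ q ψ h (h.ne_top hm)).1 I h0 h1

theorem nm_nonneg {R : Subring ℂ} (I : Ideal R) : 0 ≤ nm I := Nat.cast_nonneg _

theorem gd_of {R : Subring ℂ} {ω : ℂ} (hR : QR R ω) (hbasic : H_BASIC) (hfp : H_FP) {m : ℕ}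
    (hm : 1 ≤ m) {f : Ideal R} {ψ : Ideal R → ℂ} (h : HC (2 * m - 1) f ψ) :
    Gd R (fun I => ψ I / (nm I : ℂ) ^ (m - 1)) := by
  obtain ⟨hfin, hbot, hge1, hmul, hsp, hdvd, htop, hnat, hunits⟩ := hbasic R ω hR
  refine ⟨?_, ?_, fun I J => ?_, fun I => ?_⟩
  · rw [(h.zero ⊥).2 (Or.inl rfl), zero_div]
  · rw [h.top, (htop ⊤).2 rfl]
    simp
  · rw [h.mul, hmul, Complex.ofReal_mul, mul_pow, mul_div_mul_comm]
  · by_cases hz : ψ I = 0
    · rw [hz, zero_div, norm_zero]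
      exact Real.sqrt_nonneg _
    · have hz' : ¬ (I = ⊥ ∨ ¬ IsCoprime I f) := fun h' => hz ((h.zero I).2 h')
      push Not at hz'
      have h1 := h.sq hR hfp hm hz'.1 hz'.2
      have hp : 0 < nm I := lt_of_lt_of_le one_pos (hge1 I hz'.1)
      apply Real.le_sqrt_of_sq_le
      rw [norm_div, norm_pow, Complex.norm_real, Real.norm_eq_abs, abs_of_pos hp, div_pow, h1,
        div_le_iff₀ (by positivity), ← pow_mul, ← pow_succ']
      exact le_of_eq (congrArg _ (by omega))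

theorem asm (hbasic : H_BASIC) (hcls : H_CLS) (hfp : H_FP) (hvk : K_VK) (hafe : H_AFE)
    (hfinn : H_FINN) (hprod : H_PROD) (hpw : H_PW)
    {R : Subring ℂ} {ω : ℂ} (hR : QR R ω) (m : ℕ) (hm : 1 ≤ m) (f : Ideal R) (ψ : Ideal R → ℂ)
    (hψ : HC (2 * m - 1) f ψ) :
    ∃ L : Ideal R → (Ideal R → ℂ) → ℂ → ℂ,
      (∀ (c : Ideal R) (χ : Ideal R → ℂ), IsCoprime f c → HC 0 c χ →
        Differentiable ℂ (L c χ) ∧ ∀ s : ℂ, (m : ℝ) + 1 / 2 < s.re →
          HasSum (fun I : Ideal R => ψ I * χ I * (nm I : ℂ) ^ (-s)) (L c χ s)) ∧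
      ∀ M : ℕ, 1 ≤ M → ∀ δ : ℝ, 0 < δ → ∃ N0 : ℝ, ∀ (c : Ideal R) (χ : Ideal R → ℂ),
        IsCoprime f c → HC 0 c χ → N0 ≤ nm c → ∀ d : ℕ, Od χ d → (nm c) ^ (2 / 3 + δ) ≤ d →
          ∃ a : ℕ, 1 ≤ a ∧ Nat.Coprime a d ∧ a ≡ 1 [MOD M] ∧ HC 0 c (pw χ a) ∧
            (nm c) ^ (-δ) ≤ ‖L c (pw χ a) m‖ := by
  have hgd := gd_of hR hbasic hfp hm hψ
  set g : Ideal R → ℂ := fun I => ψ I / (nm I : ℂ) ^ (m - 1) with hg
  have hft : f ≠ ⊤ := hψ.ne_top hm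
  obtain ⟨hfin, hbot, hge1, hmul, hsp, hdvd, htop, hnat, hunits⟩ := hbasic R ω hR
  obtain ⟨h, hh1, -, hcls⟩ := hcls R ω hR
  obtain ⟨CV, hCV⟩ := hvk m hm
  have hf1 : 1 ≤ nm f := hge1 f hψ.ne
  have hfpos : 0 < nm f := lt_of_lt_of_le one_pos hf1
  set c0 : ℝ := ω.im ^ 2 * nm f / Real.pi ^ 2 with hc0
  have hc0p : 0 < c0 := by
    have := hR.im
    positivity
  classical
  -- the data for the conductor `f c`
  have hsys : ∀ c : Ideal R, ∃ (s : Finset (Ideal R)) (hh : Ideal R) (μ : R) (T : Finset R),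
      c ≠ ⊥ → Sys (f * c) s hh μ T := by
    intro c
    by_cases hc : c ≠ ⊥
    · haveI := hR.ded
      obtain ⟨s, hh, μ, T, -, hS⟩ := hcls (f * c) (mul_ne_zero hψ.ne hc)
      exact ⟨s, hh, μ, T, fun _ => hS⟩
    · exact ⟨∅, ⊥, 0, ∅, fun h' => absurd h' hc⟩
  choose s hh μ T hS using hsys
  let k : Ideal R → R → ℂ := fun c x => fp (2 * m - 1) ψ x * ez ω ((x : ℂ) / (μ c : ℂ)) *
    (μ c : ℂ) ^ (2 * m - 1) / ((nm (f * c) : ℂ) ^ m * ψ (hh c))
  have hex : ∀ (c : Ideal R) (χ : Ideal R → ℂ), ∃ F : ℂ → ℂ, (IsCoprime f c → HC 0 c χ →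
      Differentiable ℂ F ∧
      (∀ z : ℂ, (m : ℝ) + 1 / 2 < z.re →
        HasSum (fun I : Ideal R => ψ I * χ I * (nm I : ℂ) ^ (-z)) (F z)) ∧
      ∀ X Y : ℝ, 0 < X → 0 < Y → X * Y = c0 * nm c →
        F m = smo (Vk m) g X χ + (∑ x ∈ T c, χ (sp x) * k c x / χ (hh c)) *
          (starRingEnd ℂ) (smo (Vk m) g Y χ)) := by
    intro c χ
    by_cases hc : IsCoprime f c ∧ HC 0 c χ
    · obtain ⟨hfc, hχ⟩ := hc
      have hprim := hprod R ω hR _ f c ψ χ hψ hχ hfc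
      have hSc := hS c hχ.ne
      obtain ⟨F, h1, h2, h3⟩ := hafe R ω hR m hm (f * c) _ hprim _ _ _ _ hSc
      refine ⟨F, fun _ _ => ⟨h1, h2, fun X Y hX hY hXY => ?_⟩⟩
      rw [h3 X Y hX hY (by rw [hXY, hc0, hmul]; ring)]
      have e1 : ∀ I : Ideal R, ψ I * χ I / (nm I : ℂ) ^ m = χ I * g I / (nm I : ℂ) := by
        intro I
        rcases eq_or_ne I ⊥ with h0 | h0
        · rw [h0, (hψ.zero ⊥).2 (Or.inl rfl), hgd.zero]
          simp
        · have hp : (nm I : ℂ) ≠ 0 := by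
            have := lt_of_lt_of_le one_pos (hge1 I h0)
            exact_mod_cast this.ne'
          simp only [hg]
          rw [mul_div_assoc', div_div, ← pow_succ, show m - 1 + 1 = m by omega, mul_comm]
      congr 1
      · unfold smo
        refine tsum_congr fun I => ?_
        rw [e1]
      · congr 1
        · unfold Wc gT
          have hc' : χ (hh c) ≠ 0 := by
            intro h'
            rcases (hχ.zero _).1 h' with h'' | h''
            · exact hSc.ne h''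
            · exact h'' (IsCoprime.of_mul_right_right hSc.cop)
          rw [Finset.sum_mul, Finset.sum_div]
          refine Finset.sum_congr rfl fun x _ => ?_
          simp only [k, fp]
          simp only [div_eq_mul_inv, mul_inv]
          ring
        · unfold smo
          rw [Complex.conj_tsum]
          refine tsum_congr fun I => ?_
          rw [← e1]
          simp only [map_mul, map_div₀, map_pow, Complex.conj_ofReal]
    · exact ⟨0, fun h1 h2 => absurd ⟨h1, h2⟩ hc⟩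
  choose L hL using hex
  refine ⟨L, fun c χ h1 h2 => ⟨(hL c χ h1 h2).1, (hL c χ h1 h2).2.1⟩, fun M hM δ hδ => ?_⟩
  obtain ⟨q0, hq0⟩ := hfinn (Vk m) CV hCV R ω hR g hgd c0 (nm f) hc0p hfpos M hM δ hδ
  refine ⟨max q0 2, fun c χ hfc hχ hN d hd hdN => ?_⟩
  have hq0' : q0 ≤ nm c := le_trans (le_max_left _ _) hN
  have h2' : 2 ≤ nm c := le_trans (le_max_right _ _) hN
  have hcpos : 0 < nm c := by linarith
  have hSc := hS c hχ.ne
  have hk : ∀ x : R, ‖k c x‖ ≤ (nm c) ^ (-1 / 2 : ℝ) := by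
    intro x
    have hqpos : 0 < nm (f * c) := by rw [hmul]; positivity
    have hhpos : 0 < nm (hh c) := lt_of_lt_of_le one_pos (hge1 _ hSc.ne)
    have hfpx : ‖fp (2 * m - 1) ψ x‖ ≤ 1 := by
      obtain ⟨-, -, hz, hn, -⟩ := hfp R ω hR _ f ψ hψ hft
      by_cases hx : IsCoprime (sp x) f
      · exact (hn x hx).le
      · rw [(hz x).2 hx, norm_zero]
        exact zero_le_one
    have hψh : ‖ψ (hh c)‖ ^ 2 = nm (hh c) ^ (2 * m - 1) :=
      hψ.sq hR hfp hm hSc.ne (IsCoprime.of_mul_right_left hSc.cop)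
    have hμ : ‖(μ c : ℂ)‖ ^ 2 = nm (f * c) * nm (hh c) := by
      rw [← hmul, hSc.prn, hsp, Complex.normSq_eq_norm_sq]
    have hsq : ‖k c x‖ ^ 2 ≤ (nm c)⁻¹ := by
      simp only [k, norm_div, norm_mul, ez_norm, mul_one, norm_pow, Complex.norm_real,
        Real.norm_eq_abs, abs_of_pos hqpos]
      rw [div_pow, mul_pow, mul_pow, hψh, ← pow_mul, mul_comm (2 * m - 1) 2, pow_mul, hμ, mul_pow]
      have e2 : (nm (f * c) ^ m) ^ 2 = nm (f * c) ^ (2 * m - 1) * nm (f * c) := by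
        rw [← pow_mul, ← pow_succ]
        congr 1
        omega
      rw [e2]
      have hA : 0 < nm (f * c) ^ (2 * m - 1) := by positivity
      have hB : 0 < nm (hh c) ^ (2 * m - 1) := by positivity
      rw [div_le_iff₀ (by positivity)]
      have h5 : ‖fp (2 * m - 1) ψ x‖ ^ 2 ≤ 1 := pow_le_one₀ (norm_nonneg _) hfpx
      have h6 : 1 ≤ (nm c)⁻¹ * nm (f * c) := by
        rw [hmul, ← mul_assoc, mul_comm (nm c)⁻¹, mul_assoc, inv_mul_cancel₀ hcpos.ne', mul_one]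
        exact hf1
      calc ‖fp (2 * m - 1) ψ x‖ ^ 2 * (nm (f * c) ^ (2 * m - 1) * nm (hh c) ^ (2 * m - 1))
          ≤ 1 * (nm (f * c) ^ (2 * m - 1) * nm (hh c) ^ (2 * m - 1)) := by
            gcongr
        _ ≤ ((nm c)⁻¹ * nm (f * c)) * (nm (f * c) ^ (2 * m - 1) * nm (hh c) ^ (2 * m - 1)) := by
            gcongr
        _ = _ := by ring
    have h7 : (nm c) ^ (-1 / 2 : ℝ) = Real.sqrt ((nm c)⁻¹) := by
      rw [Real.sqrt_eq_rpow, ← Real.rpow_neg_one, ← Real.rpow_mul hcpos.le]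
      norm_num
    rw [h7]
    exact Real.le_sqrt_of_sq_le hsq
  haveI := hR.ded
  obtain ⟨a, ha1, ha2, ha3⟩ := hq0 c χ hχ.rc hq0' d hd hdN (f * c) (hh c) (T c)
    (mul_ne_zero hψ.ne hχ.ne) (Dvd.intro_left f rfl) (by rw [hmul]) hSc.ne hSc.cop hSc.rp (k c) hk
    (fun a => L c (pw χ a) m) (fun a ha X Y hX hY hXY =>
      (hL c (pw χ a) hfc (hpw R ω hR c χ hχ d hd a ha)).2.2 X Y hX hY hXY)
  refine ⟨a, ?_, ha1, ha2, hpw R ω hR c χ hχ d hd a ha1, ha3⟩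
  rcases Nat.eq_zero_or_pos a with h0 | h0
  · exfalso
    subst h0
    rw [Nat.coprime_zero_left] at ha1
    subst ha1
    have h8 : (1 : ℝ) < (nm c) ^ (2 / 3 + δ) := Real.one_lt_rpow (by linarith) (by linarith)
    rw [Nat.cast_one] at hdN
    linarith
  · exact h0

end Pool.Agent.W192.HK
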