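import Pool.Agent.W192.HK.Parts0
import Pool.Agent.W192.HK.Asm

/-!
# Assembly of the project HK, ray class characters at `s = 1/2`
-/

set_option autoImplicit false

open Complex Filter Topology Set

namespace Pool.Agent.W192.HK

open Pool.Agent.W192.CM (ez nu)

theorem gd0_of {R : Subring ℂ} {ω : ℂ} (hR : QR R ω) (hbasic : H_BASIC) (hfpr : H_FPR)
    {f : Ideal R} {ψ : Ideal R → ℂ} (h : HC 0 f ψ) :
    Gd R (fun I => ψ I * (Real.sqrt (nm I) : ℂ)) := by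
  obtain ⟨hfin, hbot, hge1, hmul, hsp, hdvd, htop, hnat, hunits⟩ := hbasic R ω hR
  refine ⟨?_, ?_, fun I J => ?_, fun I => ?_⟩
  · rw [(h.zero ⊥).2 (Or.inl rfl), zero_mul]
  · rw [h.top, (htop ⊤).2 rfl]
    simp
  · rw [h.mul, hmul, Real.sqrt_mul (nm_nonneg I), Complex.ofReal_mul]
    ring
  · rw [norm_mul, Complex.norm_real, Real.norm_eq_abs, abs_of_nonneg (Real.sqrt_nonneg _)]
    have h1 : ‖ψ I‖ ≤ 1 := by
      by_cases hz : ψ I = 0
      · rw [hz, norm_zero]; exact zero_le_one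
      · exact ((hfpr R ω hR f ψ h.rc).2.1 I hz).le
    exact mul_le_of_le_one_left (Real.sqrt_nonneg _) h1

theorem asm0 (hbasic : H_BASIC) (hcls : H_CLS) (hfpr : H_FPR) (hv : N_V) (hafe : N_AFE)
    (hfinn : N_FINN) (hprod : H_PROD) (hpw : H_PW)
    {R : Subring ℂ} {ω : ℂ} (hR : QR R ω) (f : Ideal R) (ψ : Ideal R → ℂ)
    (hψ : HC 0 f ψ) :
    ∃ L : Ideal R → (Ideal R → ℂ) → ℂ → ℂ,
      (∀ (c : Ideal R) (χ : Ideal R → ℂ), IsCoprime f c → c ≠ ⊤ → HC 0 c χ →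
        Differentiable ℂ (L c χ) ∧ ∀ s : ℂ, 1 < s.re →
          HasSum (fun I : Ideal R => ψ I * χ I * (nm I : ℂ) ^ (-s)) (L c χ s)) ∧
      ∀ M : ℕ, 1 ≤ M → ∀ δ : ℝ, 0 < δ → ∃ N0 : ℝ, ∀ (c : Ideal R) (χ : Ideal R → ℂ),
        IsCoprime f c → HC 0 c χ → N0 ≤ nm c → ∀ d : ℕ, Od χ d → (nm c) ^ (2 / 3 + δ) ≤ d →
          ∃ a : ℕ, 1 ≤ a ∧ Nat.Coprime a d ∧ a ≡ 1 [MOD M] ∧ HC 0 c (pw χ a) ∧
            (nm c) ^ (-δ) ≤ ‖L c (pw χ a) (1 / 2)‖ := by
  have hgd := gd0_of hR hbasic hfpr hψ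
  set g : Ideal R → ℂ := fun I => ψ I * (Real.sqrt (nm I) : ℂ) with hg
  obtain ⟨hfin, hbot, hge1, hmul, hsp, hdvd, htop, hnat, hunits⟩ := hbasic R ω hR
  obtain ⟨h, hh1, -, hcls⟩ := hcls R ω hR
  obtain ⟨CV, hCV⟩ := hv
  have hf1 : 1 ≤ nm f := hge1 f hψ.ne
  have hfpos : 0 < nm f := lt_of_lt_of_le one_pos hf1
  set c0 : ℝ := ω.im ^ 2 * nm f / Real.pi ^ 2 with hc0
  have hc0p : 0 < c0 := by
    have := hR.im
    positivity
  classical
  -- the data for the conductor `f c`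
  have hsys : ∀ c : Ideal R, ∃ (s : Finset (Ideal R)) (hh : Ideal R) (μ : R) (T : Finset R),
      c ≠ ⊥ → Sys (f * c) s hh μ T := by
    intro c
    by_cases hc : c ≠ ⊥
    · haveI := hR.ded
      obtain ⟨s, hh, μ, T, -, hS⟩ := hcls (f * c) (mul_ne_zero hψ.ne hc)
      exact ⟨s, hh, μ, T, fun _ => hS⟩
    · exact ⟨∅, ⊥, 0, ∅, fun h' => absurd h' hc⟩
  choose s hh μ T hS using hsys
  let k : Ideal R → R → ℂ := fun c x => fp 0 ψ x * ez ω ((x : ℂ) / (μ c : ℂ)) /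
    ((Real.sqrt (nm (f * c)) : ℂ) * ψ (hh c))
  have hex : ∀ (c : Ideal R) (χ : Ideal R → ℂ), ∃ F : ℂ → ℂ, (IsCoprime f c → c ≠ ⊤ → HC 0 c χ →
      Differentiable ℂ F ∧
      (∀ z : ℂ, 1 < z.re →
        HasSum (fun I : Ideal R => ψ I * χ I * (nm I : ℂ) ^ (-z)) (F z)) ∧
      ∀ X Y : ℝ, 0 < X → 0 < Y → X * Y = c0 * nm c →
        F (1 / 2) = smo V0 g X χ + (∑ x ∈ T c, χ (sp x) * k c x / χ (hh c)) *
          (starRingEnd ℂ) (smo V0 g Y χ)) := by
    intro c χ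
    by_cases hc : IsCoprime f c ∧ c ≠ ⊤ ∧ HC 0 c χ
    · obtain ⟨hfc, hct, hχ⟩ := hc
      have hprim := hprod R ω hR _ f c ψ χ hψ hχ hfc
      have hSc := hS c hχ.ne
      have hft : f * c ≠ ⊤ := by
        intro h'
        apply hct
        have h'' : f * c ≤ c := Ideal.mul_le_right
        rw [h'] at h''
        exact eq_top_iff.2 h''
      obtain ⟨F, h1, h2, h3⟩ := hafe R ω hR (f * c) _ hprim hft _ _ _ _ hSc
      refine ⟨F, fun _ _ _ => ⟨h1, h2, fun X Y hX hY hXY => ?_⟩⟩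
      rw [h3 X Y hX hY (by rw [hXY, hc0, hmul]; ring)]
      have e1 : ∀ I : Ideal R, ψ I * χ I / (Real.sqrt (nm I) : ℂ) =
          χ I * g I / (nm I : ℂ) := by
        intro I
        rcases eq_or_ne I ⊥ with h0 | h0
        · rw [h0, (hψ.zero ⊥).2 (Or.inl rfl), hgd.zero]
          simp
        · have hp : 0 < nm I := lt_of_lt_of_le one_pos (hge1 I h0)
          have hp1 : (Real.sqrt (nm I) : ℂ) ≠ 0 := by
            have := Real.sqrt_pos.2 hp
            exact_mod_cast this.ne'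
          have hp2 : (nm I : ℂ) = (Real.sqrt (nm I) : ℂ) * (Real.sqrt (nm I) : ℂ) := by
            rw [← Complex.ofReal_mul, Real.mul_self_sqrt hp.le]
          simp only [hg]
          rw [hp2]
          field_simp
      congr 1
      · unfold smo
        refine tsum_congr fun I => ?_
        rw [e1]
      · congr 1
        · unfold Wz gT
          rw [Finset.sum_div]
          refine Finset.sum_congr rfl fun x _ => ?_
          simp only [k, fp]
          simp only [div_eq_mul_inv, mul_inv]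
          ring
        · unfold smo
          rw [Complex.conj_tsum]
          refine tsum_congr fun I => ?_
          rw [← e1]
          simp only [map_mul, map_div₀, Complex.conj_ofReal]
    · exact ⟨0, fun h1 h2 h3 => absurd ⟨h1, h2, h3⟩ hc⟩
  choose L hL using hex
  refine ⟨L, fun c χ h1 h2 h3 => ⟨(hL c χ h1 h2 h3).1, (hL c χ h1 h2 h3).2.1⟩, fun M hM δ hδ => ?_⟩
  obtain ⟨q0, hq0⟩ := hfinn V0 CV hCV R ω hR g hgd c0 (nm f) hc0p hfpos M hM δ hδ
  refine ⟨max q0 2, fun c χ hfc hχ hN d hd hdN => ?_⟩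
  have hq0' : q0 ≤ nm c := le_trans (le_max_left _ _) hN
  have h2' : 2 ≤ nm c := le_trans (le_max_right _ _) hN
  have hcpos : 0 < nm c := by linarith
  have hSc := hS c hχ.ne
  have hct : c ≠ ⊤ := by
    intro h'
    have := (htop c).2 h'
    linarith
  have hk : ∀ x : R, ‖k c x‖ ≤ (nm c) ^ (-1 / 2 : ℝ) := by
    intro x
    have hqpos : 0 < nm (f * c) := by rw [hmul]; positivity
    have hfpx : ‖fp 0 ψ x‖ ≤ 1 := by
      unfold fp
      rw [pow_zero, div_one]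
      by_cases hz : ψ (sp x) = 0
      · rw [hz, norm_zero]; exact zero_le_one
      · exact ((hfpr R ω hR f ψ hψ.rc).2.1 _ hz).le
    have hψh : ‖ψ (hh c)‖ = 1 := by
      refine (hfpr R ω hR f ψ hψ.rc).2.1 _ fun h' => ?_
      rcases (hψ.zero _).1 h' with h'' | h''
      · exact hSc.ne h''
      · exact h'' (IsCoprime.of_mul_right_left hSc.cop)
    have hs : 0 < Real.sqrt (nm (f * c)) := Real.sqrt_pos.2 hqpos
    have h7 : (nm c) ^ (-1 / 2 : ℝ) = (Real.sqrt (nm c))⁻¹ := by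
      rw [Real.sqrt_eq_rpow, ← Real.rpow_neg hcpos.le]
      norm_num
    rw [h7]
    simp only [k, norm_div, norm_mul, ez_norm, mul_one, Complex.norm_real,
      Real.norm_eq_abs, abs_of_pos hs, hψh]
    rw [div_eq_mul_inv]
    have h8 : Real.sqrt (nm c) ≤ Real.sqrt (nm (f * c)) := by
      apply Real.sqrt_le_sqrt
      rw [hmul]
      nlinarith
    calc ‖fp 0 ψ x‖ * (Real.sqrt (nm (f * c)))⁻¹ ≤ 1 * (Real.sqrt (nm (f * c)))⁻¹ := by gcongr
      _ ≤ (Real.sqrt (nm c))⁻¹ := by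
        rw [one_mul]
        exact inv_anti₀ (Real.sqrt_pos.2 hcpos) h8
  haveI := hR.ded
  obtain ⟨a, ha1, ha2, ha3⟩ := hq0 c χ hχ.rc hq0' d hd hdN (f * c) (hh c) (T c)
    (mul_ne_zero hψ.ne hχ.ne) (Dvd.intro_left f rfl) (by rw [hmul]) hSc.ne hSc.cop hSc.rp (k c) hk
    (fun a => L c (pw χ a) (1 / 2)) (fun a ha X Y hX hY hXY =>
      (hL c (pw χ a) hfc hct (hpw R ω hR c χ hχ d hd a ha)).2.2 X Y hX hY hXY)
  refine ⟨a, ?_, ha1, ha2, hpw R ω hR c χ hχ d hd a ha1, ha3⟩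
  rcases Nat.eq_zero_or_pos a with h0 | h0
  · exfalso
    subst h0
    rw [Nat.coprime_zero_left] at ha1
    subst ha1
    have h8 : (1 : ℝ) < (nm c) ^ (2 / 3 + δ) := Real.one_lt_rpow (by linarith) (by linarith)
    rw [Nat.cast_one] at hdN
    linarith
  · exact h0

end Pool.Agent.W192.HK
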