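import Pool.Agent.W192.HK.PartsL
import Pool.Agent.W192.HK.Asm0

/-!
# Assembly of the project HL
-/

set_option autoImplicit false

open Complex Filter Topology Set

namespace Pool.Agent.W192.HK

open Pool.Agent.W192.CM (ez nu)

theorem asmL (hbasic : H_BASIC) (hcls : H_CLS) (hfpr : H_FPR) (hv : N_V) (hafe : N_AFE)
    (hms : L_MS) (hgauss : H_GAUSS) (hprod : H_PROD) (hpw : H_PW)
    {R : Subring ℂ} {ω : ℂ} (hR : QR R ω) (f : Ideal R) (ψ : Ideal R → ℂ)
    (hψ : HC 0 f ψ) :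
    ∃ L : Ideal R → (Ideal R → ℂ) → ℂ → ℂ,
      (∀ (c : Ideal R) (χ : Ideal R → ℂ), IsCoprime f c → c ≠ ⊤ → HC 0 c χ →
        Differentiable ℂ (L c χ) ∧ ∀ s : ℂ, 1 < s.re →
          HasSum (fun I : Ideal R => ψ I * χ I * (nm I : ℂ) ^ (-s)) (L c χ s)) ∧
      ∀ ε : ℝ, 0 < ε → ∃ C : ℝ, 0 < C ∧ ∀ (c : Ideal R) (χ : Ideal R → ℂ),
        IsCoprime f c → c ≠ ⊤ → HC 0 c χ → ∀ d : ℕ, Od χ d →
          2 ≤ d ∧ ∑ a ∈ (Finset.range d).filter (fun a => Nat.Coprime a d),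
            ‖L c (pw χ a) (1 / 2)‖ ^ 2 ≤ C * d * (nm c) ^ ε * Real.sqrt (nm c / d) := by
  have hgd := gd0_of hR hbasic hfpr hψ
  set g : Ideal R → ℂ := fun I => ψ I * (Real.sqrt (nm I) : ℂ) with hg
  have hfpr' := hfpr
  obtain ⟨hfin, hbot, hge1, hmul, hsp, hdvd, htop, hnat, hunits⟩ := hbasic R ω hR
  obtain ⟨h, hh1, -, hcls⟩ := hcls R ω hR
  obtain ⟨CV, hCV⟩ := hv
  have hf1 : 1 ≤ nm f := hge1 f hψ.ne
  have hfpos : 0 < nm f := lt_of_lt_of_le one_pos hf1
  set c0 : ℝ := ω.im * Real.sqrt (nm f) / Real.pi with hc0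
  have hc0p : 0 < c0 := by
    have := hR.im
    have := Real.sqrt_pos.2 hfpos
    positivity
  classical
  have hex : ∀ (c : Ideal R) (χ : Ideal R → ℂ), ∃ F : ℂ → ℂ, (IsCoprime f c → c ≠ ⊤ → HC 0 c χ →
      Differentiable ℂ F ∧
      (∀ z : ℂ, 1 < z.re →
        HasSum (fun I : Ideal R => ψ I * χ I * (nm I : ℂ) ^ (-z)) (F z)) ∧
      ‖F (1 / 2)‖ ≤ 2 * ‖smo V0 g (c0 * Real.sqrt (nm c)) χ‖) := by
    intro c χ
    by_cases hc : IsCoprime f c ∧ c ≠ ⊤ ∧ HC 0 c χ
    · obtain ⟨hfc, hct, hχ⟩ := hc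
      have hprim := hprod R ω hR _ f c ψ χ hψ hχ hfc
      haveI := hR.ded
      obtain ⟨s, hh, μ, T, -, hSc⟩ := hcls (f * c) (mul_ne_zero hψ.ne hχ.ne)
      have hft : f * c ≠ ⊤ := by
        intro h'
        apply hct
        have h'' : f * c ≤ c := Ideal.mul_le_right
        rw [h'] at h''
        exact eq_top_iff.2 h''
      obtain ⟨F, h1, h2, h3⟩ := hafe R ω hR (f * c) _ hprim hft _ _ _ _ hSc
      refine ⟨F, fun _ _ _ => ⟨h1, h2, ?_⟩⟩
      have hcpos : 0 < nm c := lt_of_lt_of_le one_pos (hge1 c hχ.ne)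
      have hX : 0 < c0 * Real.sqrt (nm c) := mul_pos hc0p (Real.sqrt_pos.2 hcpos)
      have hXX : c0 * Real.sqrt (nm c) * (c0 * Real.sqrt (nm c)) =
          ω.im ^ 2 * nm (f * c) / Real.pi ^ 2 := by
        rw [hmul, hc0]
        have e1 := Real.mul_self_sqrt hfpos.le
        have e2 := Real.mul_self_sqrt hcpos.le
        calc ω.im * Real.sqrt (nm f) / Real.pi * Real.sqrt (nm c) *
              (ω.im * Real.sqrt (nm f) / Real.pi * Real.sqrt (nm c))
            = ω.im ^ 2 * (Real.sqrt (nm f) * Real.sqrt (nm f)) *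
              (Real.sqrt (nm c) * Real.sqrt (nm c)) / Real.pi ^ 2 := by ring
          _ = _ := by rw [e1, e2]; ring
      rw [h3 _ _ hX hX hXX]
      have e1 : ∀ I : Ideal R, ψ I * χ I / (Real.sqrt (nm I) : ℂ) =
          χ I * g I / (nm I : ℂ) := by
        intro I
        rcases eq_or_ne I ⊥ with h0 | h0
        · rw [h0, (hψ.zero ⊥).2 (Or.inl rfl), hgd.zero]
          simp
        · have hp : 0 < nm I := lt_of_lt_of_le one_pos (hge1 I h0)
          have hp1 : (Real.sqrt (nm I) : ℂ) ≠ 0 := by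
            have := Real.sqrt_pos.2 hp
            exact_mod_cast this.ne'
          have hp2 : (nm I : ℂ) = (Real.sqrt (nm I) : ℂ) * (Real.sqrt (nm I) : ℂ) := by
            rw [← Complex.ofReal_mul, Real.mul_self_sqrt hp.le]
          simp only [hg]
          rw [hp2]
          field_simp
      have eA : ∑' I : Ideal R, ψ I * χ I / (Real.sqrt (nm I) : ℂ) *
          (V0 (nm I / (c0 * Real.sqrt (nm c))) : ℂ) = smo V0 g (c0 * Real.sqrt (nm c)) χ := by
        unfold smo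
        refine tsum_congr fun I => ?_
        rw [e1]
      have eB : ∑' I : Ideal R, (starRingEnd ℂ) (ψ I * χ I) / (Real.sqrt (nm I) : ℂ) *
          (V0 (nm I / (c0 * Real.sqrt (nm c))) : ℂ) =
          (starRingEnd ℂ) (smo V0 g (c0 * Real.sqrt (nm c)) χ) := by
        unfold smo
        rw [Complex.conj_tsum]
        refine tsum_congr fun I => ?_
        rw [← e1]
        simp only [map_mul, map_div₀, Complex.conj_ofReal]
      have hW : ‖Wz ω (f * c) hh μ T (fun I => ψ I * χ I)‖ = 1 := by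
        have hqpos : 0 < nm (f * c) := by rw [hmul]; positivity
        have g1 := (hgauss R ω hR 0 (f * c) _ hprim hft s hh μ T hSc).1
        have g2 : ‖gT ω 0 (fun I => ψ I * χ I) μ T‖ = Real.sqrt (nm (f * c)) := by
          rw [← g1, Real.sqrt_sq (norm_nonneg _)]
        have g3 : ‖(fun I => ψ I * χ I) hh‖ = 1 := by
          refine (hfpr' R ω hR _ _ hprim.rc).2.1 _ fun h' => ?_
          rcases (hprim.zero _).1 h' with h'' | h''
          · exact hSc.ne h''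
          · exact h'' hSc.cop
        have hs : 0 < Real.sqrt (nm (f * c)) := Real.sqrt_pos.2 hqpos
        unfold Wz
        rw [norm_div, norm_mul, g2, g3, Complex.norm_real, Real.norm_eq_abs, abs_of_pos hs, mul_one,
          div_self hs.ne']
      rw [eA, eB]
      calc ‖smo V0 g (c0 * Real.sqrt (nm c)) χ + Wz ω (f * c) hh μ T (fun I => ψ I * χ I) *
            (starRingEnd ℂ) (smo V0 g (c0 * Real.sqrt (nm c)) χ)‖
          ≤ ‖smo V0 g (c0 * Real.sqrt (nm c)) χ‖ + ‖Wz ω (f * c) hh μ T (fun I => ψ I * χ I) *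
            (starRingEnd ℂ) (smo V0 g (c0 * Real.sqrt (nm c)) χ)‖ := norm_add_le _ _
        _ = 2 * ‖smo V0 g (c0 * Real.sqrt (nm c)) χ‖ := by
            rw [norm_mul, hW, one_mul, RCLike.norm_conj]
            ring
    · exact ⟨0, fun h1 h2 h3 => absurd ⟨h1, h2, h3⟩ hc⟩
  choose L hL using hex
  refine ⟨L, fun c χ h1 h2 h3 => ⟨(hL c χ h1 h2 h3).1, (hL c χ h1 h2 h3).2.1⟩, fun ε hε => ?_⟩
  obtain ⟨C, hC, hCC⟩ := hms V0 CV hCV R ω hR g hgd c0 hc0p ε hε
  refine ⟨4 * C, by positivity, fun c χ hfc hct hχ d hd => ⟨?_, ?_⟩⟩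
  · by_contra hlt
    have hd1 : d = 1 := by have := hd.pos; omega
    obtain ⟨α, h0, h1, h2, h3⟩ := hχ.prim ⊤ (lt_top_iff_ne_top.2 hct)
    rw [pow_zero] at h3
    apply h3
    have h4 := hd.pow (sp α) (fun h' => by
      rcases (hχ.zero _).1 h' with h'' | h''
      · exact h0 (by simpa using h'')
      · exact h'' h2)
    rwa [hd1, pow_one] at h4
  · have h5 := hCC c χ hχ.rc d hd
    calc ∑ a ∈ (Finset.range d).filter (fun a => Nat.Coprime a d), ‖L c (pw χ a) (1 / 2)‖ ^ 2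
        ≤ ∑ a ∈ (Finset.range d).filter (fun a => Nat.Coprime a d),
            4 * ‖smo V0 g (c0 * Real.sqrt (nm c)) (pw χ a)‖ ^ 2 := by
          refine Finset.sum_le_sum fun a ha => ?_
          have h6 := (hL c (pw χ a) hfc hct
            (hpw R ω hR c χ hχ d hd a (Finset.mem_filter.1 ha).2)).2.2
          have h7 := norm_nonneg (L c (pw χ a) (1 / 2))
          nlinarith [norm_nonneg (smo V0 g (c0 * Real.sqrt (nm c)) (pw χ a))]
      _ ≤ ∑ a ∈ Finset.range d, 4 * ‖smo V0 g (c0 * Real.sqrt (nm c)) (pw χ a)‖ ^ 2 :=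
          Finset.sum_le_sum_of_subset_of_nonneg (Finset.filter_subset _ _)
            (fun _ _ _ => by positivity)
      _ = 4 * ∑ a ∈ Finset.range d, ‖smo V0 g (c0 * Real.sqrt (nm c)) (pw χ a)‖ ^ 2 := by
          rw [Finset.mul_sum]
      _ ≤ 4 * (C * d * (nm c) ^ ε * Real.sqrt (nm c / d)) := by gcongr
      _ = _ := by ring

end Pool.Agent.W192.HK
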